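import Pool.Agent.AEC.StmtsB

/-!
# Row DIS of squad AEC: smoothness for directed unions
-/

set_option autoImplicit false

open FirstOrder FirstOrder.Language Cardinal Set

universe u

namespace Pool.Agent.AEC.H48

variable {L : FirstOrder.Language.{u, u}} {κ : Cardinal.{u}} {K : AEC L κ}

theorem emb_incl {N : Type u} [L.Structure N] {S T : L.Substructure N} (hS : K.emb S.subtype)
    (hT : K.emb T.subtype) (h : S ≤ T) : K.emb (Substructure.inclusion h) := by
  have hc : T.subtype.comp (Substructure.inclusion h) = S.subtype := by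
    ext x
    rfl
  exact K.coh hT (hc ▸ hS)

theorem emb_top {N : Type u} [L.Structure N] (hN : K.mem N) :
    K.emb (⊤ : L.Substructure N).subtype := by
  have h1 : K.mem (⊤ : L.Substructure N) :=
    K.cod (K.iso hN (Substructure.topEquiv (L := L) (M := N)).symm)
  have h2 : K.emb (Substructure.topEquiv (L := L) (M := N)).toEmbedding := K.iso h1 _
  have h3 : (⊤ : L.Substructure N).subtype =
      (Substructure.topEquiv (L := L) (M := N)).toEmbedding := by
    ext x
    rfl
  rw [h3]
  exact h2

theorem exists_bound {α : Type u} [Preorder α] {ι : Type u} [Nonempty ι] (S : ι → α)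
    (hd : Directed (· ≤ ·) S) : ∃ v : Finset ι → ι, (∀ s, ∀ i ∈ s, S i ≤ S (v s)) ∧
      ∀ t s, t ⊆ s → S (v t) ≤ S (v s) := by
  classical
  let H : ∀ s : Finset ι, (∀ t : Finset ι, t ⊂ s → ι) → ι := fun s ih =>
    Classical.choose (hd.finset_le (s ∪ s.ssubsets.attach.image
      (fun t => ih t.1 (Finset.mem_ssubsets.1 t.2))))
  let v : Finset ι → ι := Finset.strongInduction H
  have hv : ∀ s, v s = H s (fun t _ => v t) := fun s => Finset.strongInduction_eq H s
  have hH : ∀ s, ∀ i ∈ s ∪ s.ssubsets.attach.image (fun t => v t.1), S i ≤ S (v s) := by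
    intro s
    rw [hv s]
    exact Classical.choose_spec (hd.finset_le (s ∪ s.ssubsets.attach.image (fun t => v t.1)))
  refine ⟨v, fun s i hi => hH s i (Finset.mem_union_left _ hi), fun t s hts => ?_⟩
  rcases eq_or_ne t s with rfl | hne
  · exact le_rfl
  · have hss : t ⊂ s := Finset.ssubset_iff_subset_ne.2 ⟨hts, hne⟩
    refine hH s (v t) (Finset.mem_union_right _ ?_)
    exact Finset.mem_image.2 ⟨⟨t, Finset.mem_ssubsets.2 hss⟩, Finset.mem_attach _ _, rfl⟩

/-- **DIS**: smoothness for directed unions. -/
theorem dis (hfin : FinStmt.{u}) : DisStmt.{u} := by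
  classical
  intro L κ K N _ ι _ S hd hS
  obtain ⟨v, hv1, hv2⟩ := exists_bound S hd
  let M : Finset (Option ι) → L.Substructure N := fun s =>
    if none ∈ s then ⊤ else S (v (Finset.eraseNone s))
  have hN : K.mem N := K.cod (hS (Classical.arbitrary ι))
  have hM1 : ∀ s, none ∈ s → M s = ⊤ := fun s h => if_pos h
  have hM2 : ∀ s, none ∉ s → M s = S (v (Finset.eraseNone s)) := fun s h => if_neg h
  have hMe : ∀ s, K.emb (M s).subtype := by
    intro s
    by_cases h : none ∈ s
    · rw [hM1 s h]
      exact emb_top hN
    · rw [hM2 s h]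
      exact hS _
  have mono : Monotone M := by
    intro s t hst
    by_cases h : none ∈ t
    · rw [hM1 t h]
      exact le_top
    · have h' : none ∉ s := fun hs => h (hst hs)
      rw [hM2 s h', hM2 t h]
      exact hv2 _ _ (Finset.eraseNone.monotone hst)
  have key := hfin L κ K N (Option ι) M mono (fun s t h => emb_incl (hMe s) (hMe t) (mono h))
    (Set.range some) Set.univ (Set.subset_univ _)
  have hU : unionOver M Set.univ = ⊤ := by
    refine top_le_iff.1 ?_
    have h1 : M {none} ≤ unionOver M Set.univ :=
      le_iSup_of_le (⟨{none}, Set.subset_univ _⟩ :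
        {s : Finset (Option ι) // (s : Set (Option ι)) ⊆ Set.univ}) le_rfl
    rwa [hM1 _ (Finset.mem_singleton_self _)] at h1
  have hA : unionOver M (Set.range some) = ⨆ i, S i := by
    apply le_antisymm
    · refine iSup_le fun s => ?_
      have h : none ∉ s.1 := by
        intro h
        obtain ⟨i, hi⟩ := s.2 h
        cases hi
      rw [hM2 s.1 h]
      exact le_iSup S _
    · refine iSup_le fun i => ?_
      have h : none ∉ ({some i} : Finset (Option ι)) := by
        intro h
        cases Finset.mem_singleton.1 h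
      have h1 : S i ≤ M {some i} := by
        rw [hM2 _ h]
        exact hv1 _ i (Finset.mem_eraseNone.2 (Finset.mem_singleton_self _))
      refine h1.trans (le_iSup_of_le (⟨{some i}, ?_⟩ :
        {s : Finset (Option ι) // (s : Set (Option ι)) ⊆ Set.range some}) le_rfl)
      intro x hx
      exact ⟨i, (Finset.mem_singleton.1 hx).symm⟩
  have hT : ∀ T : L.Substructure N, T = ⊤ → K.emb T.subtype := by
    rintro _ rfl
    exact emb_top hN
  have hc := K.comp key (hT _ hU)
  have hc' : K.emb (unionOver M (Set.range some)).subtype := hc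
  rw [hA] at hc'
  exact hc'

end Pool.Agent.AEC.H48
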