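import Pool.Agent.AEC.StmtsS

/-!
# Row S_TP1 of squad AEC: the template for index sets of cardinality `κ`
-/

set_option autoImplicit false

open FirstOrder FirstOrder.Language Cardinal Set

universe u

namespace Pool.Agent.AEC.S.H48

open Pool.Agent.AEC Pool.Agent.AEC.S

variable {L : FirstOrder.Language.{u, u}} {κ : Cardinal.{u}} {K : AEC L κ}

/-- an embedding whose range is a strong substructure is strong -/
theorem emb_of_range {U N : Type u} [L.Structure U] [L.Structure N] (g : U ↪[L] N)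
    (h : K.emb g.toHom.range.subtype) : K.emb g := by
  have h1 : K.mem U := K.cod (K.iso (K.dom h) g.equivRange.symm)
  have h2 : K.emb g.equivRange.toEmbedding := K.iso h1 _
  have h3 : g = g.toHom.range.subtype.comp g.equivRange.toEmbedding := by
    ext x
    rfl
  rw [h3]
  exact K.comp h2 h

/-- A template which sits in `O.N`. -/
structure Data (O : Orb K) (τ : Tpl L κ) where
  p : τ.P ↪[L] O.N.α
  hA : ∀ x ∈ τ.A, p x ∈ O.C
  hX : ∀ x, x ∉ τ.A → ∀ k, ∀ c ∈ O.C, O.e k c ≠ p x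
  hB : ∀ x ∈ τ.B, p x ∈ O.B

/-- entries of a tuple of a relation which meets `e k (C)` -/
theorem rel_near (O : Orb K) {n : ℕ} (R : L.Relations n) (w : Fin n → O.N.α)
    (hR : Structure.RelMap R w) (i : Fin n) (k : O.ι) (c : O.N.α) (hc : c ∈ O.C)
    (hi : w i = O.e k c) (j : Fin n) : (∃ c' ∈ O.C, w j = O.e k c') ∨ w j ∈ O.B := by
  by_cases hij : w j = w i
  · exact Or.inl ⟨c, hc, hij.trans hi⟩
  · have hR' : Structure.RelMap R (fun l => (O.e k).symm (w l)) := by
      have h := (O.e k).symm.map_rel R w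
      exact h.2 hR
    have hadj : adj L c ((O.e k).symm (w j)) := by
      refine ⟨?_, n, R, fun l => (O.e k).symm (w l), hR', ⟨i, ?_⟩, j, rfl⟩
      · intro h
        apply hij
        rw [hi, h, (O.e k).apply_symm_apply]
      · show (O.e k).symm (w i) = c
        rw [hi, (O.e k).symm_apply_apply]
    rcases O.closed c hc _ hadj with h | h
    · exact Or.inl ⟨_, h, ((O.e k).apply_symm_apply _).symm⟩
    · right
      have h1 := O.fix k _ h
      rw [(O.e k).apply_symm_apply] at h1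
      rw [h1]
      exact h

variable [L.IsRelational] {O : Orb K} {τ : Tpl L κ}

/-- the map `W τ T → N` -/
def Phi (D : Data O τ) {T : Type u} (ν : T → O.ι) : W τ T → O.N.α :=
  Sum.elim (fun x => D.p x.1) (fun y => O.e (ν y.1) (D.p y.2.1))

omit [L.IsRelational] in
theorem Phi_inj (D : Data O τ) {T : Type u} (ν : T → O.ι) (hν : Function.Injective ν) :
    Function.Injective (Phi D ν) := by
  rintro (x | x) (y | y) h
  · have h1 : D.p x.1 = D.p y.1 := h
    have h2 := D.p.injective h1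
    have h3 : x = y := Subtype.ext h2
    rw [h3]
  · have h1 : D.p x.1 = O.e (ν y.1) (D.p y.2.1) := h
    exact absurd h1.symm (D.hX x.1 x.2 _ _ (D.hA _ y.2.2))
  · have h1 : O.e (ν x.1) (D.p x.2.1) = D.p y.1 := h
    exact absurd h1 (D.hX y.1 y.2 _ _ (D.hA _ x.2.2))
  · have h1 : O.e (ν x.1) (D.p x.2.1) = O.e (ν y.1) (D.p y.2.1) := h
    have h2 : ν x.1 = ν y.1 := O.disj _ _ _ _ (D.hA _ x.2.2) (D.hA _ y.2.2) h1
    have h3 : x.1 = y.1 := hν h2
    rw [h2] at h1
    have h4 : x.2.1 = y.2.1 := D.p.injective ((O.e (ν y.1)).injective h1)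
    have h5 : x = y := Prod.ext h3 (Subtype.ext h4)
    rw [h5]

/-- the tuple lies in one copy and in `B` -/
def Near (O : Orb K) (D : Data O τ) {T : Type u} {n : ℕ} (t : T) (v : Fin n → W τ T) : Prop :=
  ∀ j, (∃ a : τ.A, v j = W.hi t a) ∨ ∃ x : {x : τ.P // x ∉ τ.A}, v j = W.lo x ∧ D.p x.1 ∈ O.B

theorem near_rel (D : Data O τ) {T : Type u} (ν : T → O.ι) {n : ℕ} (R : L.Relations n)
    (t : T) (v : Fin n → W τ T) (h : Near O D t v) :
    Structure.RelMap R (fun j => Phi D ν (v j)) ↔ Structure.RelMap R v := by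
  have h1 : (fun j => Phi D ν (v j)) = fun j => O.e (ν t) (D.p (v j).pr) := by
    funext j
    rcases h j with ⟨a, ha⟩ | ⟨x, hx, hxB⟩
    · rw [ha]
      rfl
    · rw [hx]
      show D.p x.1 = O.e (ν t) (D.p x.1)
      exact (O.fix _ _ hxB).symm
  have h2 : Structure.RelMap R (fun j => O.e (ν t) (D.p (v j).pr)) ↔
      Structure.RelMap R (fun j => D.p (v j).pr) := (O.e (ν t)).map_rel R _
  have h3 : Structure.RelMap R (fun j => D.p (v j).pr) ↔
      Structure.RelMap R (fun j => (v j).pr) := D.p.map_rel R _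
  rw [h1, h2, h3]
  change _ ↔ ((∀ i j t t', (v i).tag = some t → (v j).tag = some t' → t = t') ∧
    Structure.RelMap R fun i => (v i).pr)
  have h4 : ∀ i s, (v i).tag = some s → s = t := by
    intro i s hs
    rcases h i with ⟨a, ha⟩ | ⟨x, hx, hxB⟩
    · rw [ha] at hs
      exact (Option.some.inj hs).symm
    · rw [hx] at hs
      cases hs
  constructor
  · intro hR
    exact ⟨fun i j s s' hs hs' => (h4 i s hs).trans (h4 j s' hs').symm, hR⟩
  · exact fun hR => hR.2

theorem Phi_rel (D : Data O τ) {T : Type u} (ν : T → O.ι) (hν : Function.Injective ν) {n : ℕ}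
    (R : L.Relations n) (v : Fin n → W τ T) :
    Structure.RelMap R (fun j => Phi D ν (v j)) ↔ Structure.RelMap R v := by
  by_cases hex : ∃ i t, (v i).tag = some t
  · obtain ⟨i, t, hit⟩ := hex
    have hi : ∃ a : τ.A, v i = W.hi t a := by
      rcases hvi : v i with x | x
      · rw [hvi] at hit
        cases hit
      · rw [hvi] at hit
        have : x.1 = t := Option.some.inj hit
        exact ⟨x.2, by rw [← this]; rfl⟩
    obtain ⟨a, ha⟩ := hi
    have hΦi : Phi D ν (v i) = O.e (ν t) (D.p a.1) := by rw [ha]; rfl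
    constructor
    · intro hR
      have hN : Near O D t v := by
        intro j
        have h1 := rel_near O R _ hR i (ν t) (D.p a.1) (D.hA _ a.2) hΦi j
        rcases hvj : v j with x | x
        · right
          refine ⟨x, rfl, ?_⟩
          rw [hvj] at h1
          rcases h1 with ⟨c, hc, hc'⟩ | h1
          · exact absurd hc'.symm (D.hX x.1 x.2 _ _ hc)
          · exact h1
        · left
          rw [hvj] at h1
          rcases h1 with ⟨c, hc, hc'⟩ | h1
          · have h2 : ν x.1 = ν t := O.disj _ _ _ _ (D.hA _ x.2.2) hc hc'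
            have h3 := hν h2
            exact ⟨x.2, by rw [← h3]; rfl⟩
          · exfalso
            have h2 : O.e (ν x.1) (D.p x.2.1) ∈ O.B := h1
            have h3 := O.fix (ν x.1) _ h2
            have h4 := (O.e (ν x.1)).injective h3
            rw [h4] at h2
            exact O.dis _ h2 (D.hA _ x.2.2)
      exact (near_rel D ν R t v hN).1 hR
    · intro hR
      have hR' : (∀ i j t t', (v i).tag = some t → (v j).tag = some t' → t = t') ∧
        Structure.RelMap R fun i => (v i).pr := hR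
      have hN : Near O D t v := by
        intro j
        have h1 := τ.loc n R _ hR'.2 ⟨i, by
          show (v i).pr ∈ τ.A
          rw [ha]
          exact a.2⟩ j
        rcases hvj : v j with x | x
        · right
          rw [hvj] at h1
          refine ⟨x, rfl, ?_⟩
          rcases h1 with h1 | h1
          · exact absurd h1 x.2
          · exact D.hB _ h1
        · left
          have h2 := hR'.1 j i x.1 t (by rw [hvj]; rfl) hit
          exact ⟨x.2, by rw [← h2]; rfl⟩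
      exact (near_rel D ν R t v hN).2 hR
  · have hno : ∀ j, ∃ x : {x : τ.P // x ∉ τ.A}, v j = W.lo x := by
      intro j
      rcases hvj : v j with x | x
      · exact ⟨x, rfl⟩
      · exact absurd ⟨j, x.1, by rw [hvj]; rfl⟩ hex
    have h1 : (fun j => Phi D ν (v j)) = fun j => D.p (v j).pr := by
      funext j
      obtain ⟨x, hx⟩ := hno j
      rw [hx]
      rfl
    have h3 : Structure.RelMap R (fun j => D.p (v j).pr) ↔
        Structure.RelMap R (fun j => (v j).pr) := D.p.map_rel R _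
    rw [h1, h3]
    change _ ↔ ((∀ i j t t', (v i).tag = some t → (v j).tag = some t' → t = t') ∧
      Structure.RelMap R fun i => (v i).pr)
    constructor
    · intro hR
      exact ⟨fun i j s s' hs _ => absurd ⟨i, s, hs⟩ hex, hR⟩
    · exact fun hR => hR.2

/-- the embedding `W τ T → N` -/
def PhiE (D : Data O τ) {T : Type u} (ν : T ↪ O.ι) : W τ T ↪[L] O.N.α where
  toFun := Phi D ν
  inj' := Phi_inj D ν ν.injective
  map_fun' := fun f _ => isEmptyElim f
  map_rel' := fun R v => Phi_rel D ν ν.injective R v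

/-- the template -/
theorem exists_data (O : Orb K) (A : L.Substructure O.N.α) (As : Set O.N.α) (Q : Set O.ι)
    (hAκ : #A ≤ κ) (hBA : O.B ⊆ (A : Set O.N.α)) (hAs : As ⊆ O.C) (hne : As.Nonempty)
    (hQ : #Q = κ) (hQ1 : ∀ k ∈ Q, ∀ x ∈ O.C, O.e k x ∈ A ↔ x ∈ As)
    (hconn : ∀ x ∈ As, ∀ y ∈ As,
      Relation.ReflTransGen (fun a b => adjIn L (As ∪ O.B) a b ∧ b ∈ As) x y)
    (hnbr : ∀ s ∈ O.B, ∃ y ∈ As, adjIn L (As ∪ O.B) s y) :
    ∃ (τ : Tpl L κ) (D : Data O τ),
      ∀ y : O.N.α, ((∃ x, x ∉ τ.A ∧ D.p x = y) ↔ (y ∈ A ∧ ∀ k, ∀ c ∈ O.C, O.e k c ≠ y)) ∧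
        ((∃ x, x ∈ τ.A ∧ D.p x = y) ↔ y ∈ As) := by
  classical
  obtain ⟨X₀, hX₀⟩ : ∃ X₀ : Set O.N.α, X₀ = {y | y ∈ A ∧ ∀ k, ∀ c ∈ O.C, O.e k c ≠ y} :=
    ⟨_, rfl⟩
  have hX₀m : ∀ y, y ∈ X₀ ↔ (y ∈ A ∧ ∀ k, ∀ c ∈ O.C, O.e k c ≠ y) := fun y => by rw [hX₀]; rfl
  have hX₀C : ∀ y ∈ X₀, y ∉ O.C := by
    intro y hy hyC
    exact ((hX₀m y).1 hy).2 O.k₀ y hyC (O.hk₀ y hyC)
  have hBX : ∀ y ∈ O.B, y ∈ X₀ := by
    intro y hy
    refine (hX₀m y).2 ⟨hBA hy, fun k c hc h => ?_⟩
    have h1 := O.fix k y hy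
    rw [← h] at h1
    have h2 := (O.e k).injective h1
    rw [h] at h2
    rw [← h2] at hc
    exact O.dis y hy hc
  let P : L.Substructure O.N.α := ⟨X₀ ∪ As, fun {n} f => isEmptyElim f⟩
  have hPm : ∀ y, y ∈ P ↔ y ∈ X₀ ∨ y ∈ As := fun y => Iff.rfl
  have hsub : ∀ y, y ∈ As ∪ O.B → y ∈ P := by
    rintro y (h | h)
    · exact (hPm y).2 (Or.inr h)
    · exact (hPm y).2 (Or.inl (hBX y h))
  have hadj : ∀ (x y : P), adjIn L (As ∪ O.B) (x : O.N.α) (y : O.N.α) → adj L x y := by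
    rintro x y ⟨hxy, n, R, v, hR, hv, ⟨i, hi⟩, j, hj⟩
    refine ⟨fun h => hxy (congrArg _ h), n, R, fun l => ⟨v l, hsub _ (hv l)⟩, ?_,
      ⟨i, Subtype.ext hi⟩, j, Subtype.ext hj⟩
    exact hR
  -- cardinality
  have hκ0 : (0 : Cardinal.{u}) < κ := lt_of_lt_of_le Cardinal.aleph0_pos K.aleph0_le
  have hQne : Q.Nonempty := by
    rw [← Set.nonempty_coe_sort]
    exact Cardinal.mk_ne_zero_iff.1 (by rw [hQ]; exact hκ0.ne')
  obtain ⟨q, hq⟩ := hQne
  have hcardAs : #As ≤ κ := by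
    refine le_trans ?_ hAκ
    refine Cardinal.mk_le_of_injective (f := fun x : As =>
      (⟨O.e q x.1, (hQ1 q hq x.1 (hAs x.2)).2 x.2⟩ : A)) ?_
    intro x y h
    have h1 : O.e q x.1 = O.e q y.1 := congrArg Subtype.val h
    exact Subtype.ext ((O.e q).injective h1)
  have hcardX : #X₀ ≤ κ := by
    refine le_trans ?_ hAκ
    refine Cardinal.mk_le_of_injective (f := fun x : X₀ =>
      (⟨x.1, ((hX₀m x.1).1 x.2).1⟩ : A)) ?_
    intro x y h
    have h1 : x.1 = y.1 := congrArg (fun z : A => (z : O.N.α)) h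
    exact Subtype.ext h1
  have hcard : #P ≤ κ := by
    have h1 : #P = #(X₀ ∪ As : Set O.N.α) := rfl
    rw [h1]
    refine (Cardinal.mk_union_le _ _).trans ((add_le_add hcardX hcardAs).trans ?_)
    rw [Cardinal.add_eq_self K.aleph0_le]
  -- paths
  have hpath : ∀ (x y : O.N.α) (hx : x ∈ As) (hy : y ∈ As),
      Relation.ReflTransGen (fun a b => adjIn L (As ∪ O.B) a b ∧ b ∈ As) x y →
      Relation.ReflTransGen (fun a b : P => adj L a b ∧ b ∉ {z : P | (z : O.N.α) ∈ As}ᶜ)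
        ⟨x, hsub x (Or.inl hx)⟩ ⟨y, hsub y (Or.inl hy)⟩ := by
    intro x y hx hy h
    have key : ∀ y, Relation.ReflTransGen (fun a b => adjIn L (As ∪ O.B) a b ∧ b ∈ As) x y →
        ∃ hy : y ∈ As,
        Relation.ReflTransGen (fun a b : P => adj L a b ∧ b ∉ {z : P | (z : O.N.α) ∈ As}ᶜ)
          ⟨x, hsub x (Or.inl hx)⟩ ⟨y, hsub y (Or.inl hy)⟩ := by
      intro y h
      induction h with
      | refl => exact ⟨hx, Relation.ReflTransGen.refl⟩
      | tail _ hbc ih =>
        obtain ⟨hb, hb'⟩ := ih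
        refine ⟨hbc.2, hb'.tail ⟨hadj _ _ hbc.1, fun h => h hbc.2⟩⟩
    exact (key y h).2
  let τ : Tpl L κ :=
    { P := P
      A := {z : P | (z : O.N.α) ∈ As}
      B := {z : P | (z : O.N.α) ∈ O.B}
      card := hcard
      ne := by
        obtain ⟨x, hx⟩ := hne
        exact ⟨⟨x, hsub x (Or.inl hx)⟩, hx⟩
      dis := fun x hx hx' => O.dis _ hx (hAs hx')
      loc := by
        rintro n R v hR ⟨i, hi⟩ j
        have hR' : Structure.RelMap R (fun l => (v l : O.N.α)) := hR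
        have h1 := rel_near O R _ hR' i O.k₀ (v i) (hAs hi) (O.hk₀ _ (hAs hi)).symm j
        rcases h1 with ⟨c, hc, hc'⟩ | h1
        · rw [O.hk₀ c hc] at hc'
          left
          rcases (hPm _).1 (v j).2 with h | h
          · refine absurd ?_ (hX₀C _ h)
            rw [hc']
            exact hc
          · exact h
        · exact Or.inr h1
      conn := by
        intro a ha b hb
        exact hpath _ _ ha hb (hconn _ ha _ hb)
      nbr := by
        intro s hs
        obtain ⟨y, hy, h⟩ := hnbr _ hs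
        exact ⟨⟨y, hsub y (Or.inl hy)⟩, hy, hadj _ _ h⟩ }
  let D : Data O τ :=
    { p := P.subtype
      hA := fun x hx => hAs hx
      hX := by
        intro x hx k c hc
        rcases (hPm _).1 x.2 with h | h
        · exact ((hX₀m _).1 h).2 k c hc
        · exact absurd h hx
      hB := fun x hx => hx }
  refine ⟨τ, D, fun y => ⟨⟨?_, ?_⟩, ⟨?_, ?_⟩⟩⟩
  · rintro ⟨x, hx, rfl⟩
    rcases (hPm _).1 x.2 with h | h
    · exact (hX₀m _).1 h
    · exact absurd h hx
  · intro hy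
    have hy' : y ∈ X₀ := (hX₀m y).2 hy
    exact ⟨⟨y, (hPm y).2 (Or.inl hy')⟩, fun h => hX₀C y hy' (hAs h), rfl⟩
  · rintro ⟨x, hx, rfl⟩
    exact hx
  · intro hy
    exact ⟨⟨y, (hPm y).2 (Or.inr hy)⟩, hy, rfl⟩

/-- **S_TP1** -/
theorem s_tp1 (hclo : CloStmt.{u}) (hprm : PrmStmt.{u}) : Tp1Stmt.{u} := by
  classical
  intro L _ κ K ⟨O⟩
  obtain ⟨A, As, Q, hAe, hAκ, hBA, hAs, hne, hQ, hQ1, hQ2, hconn, hnbr⟩ := hclo L κ K O
  obtain ⟨τ, D, hD⟩ := exists_data O A As Q hAκ hBA hAs hne hQ hQ1 hconn hnbr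
  -- the range for an enumeration of `Q`
  have hE0 : ∀ (T : Type u) (ν₀ : T ≃ Q),
      K.emb (PhiE D (ν₀.toEmbedding.trans (Function.Embedding.subtype _))) := by
    intro T ν₀
    apply emb_of_range
    have hr : (PhiE D (ν₀.toEmbedding.trans (Function.Embedding.subtype _))).toHom.range = A := by
      apply SetLike.ext
      intro y
      rw [Hom.mem_range]
      constructor
      · rintro ⟨x | x, rfl⟩
        · exact (((hD (D.p x.1)).1).1 ⟨x.1, x.2, rfl⟩).1
        · have h1 : D.p x.2.1 ∈ As := ((hD (D.p x.2.1)).2).1 ⟨x.2.1, x.2.2, rfl⟩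
          exact (hQ1 _ (ν₀ x.1).2 _ (hAs h1)).2 h1
      · intro hy
        by_cases hex : ∃ k, ∃ c ∈ O.C, O.e k c = y
        · obtain ⟨k, c, hc, rfl⟩ := hex
          have hk : k ∈ Q := by
            by_contra hk
            exact hQ2 k hk c hc hy
          have hcA := (hQ1 k hk c hc).1 hy
          obtain ⟨x, hx, hxc⟩ := ((hD c).2).2 hcA
          refine ⟨W.hi (ν₀.symm ⟨k, hk⟩) ⟨x, hx⟩, ?_⟩
          show O.e ((ν₀ (ν₀.symm ⟨k, hk⟩) : Q) : O.ι) (D.p x) = O.e k c
          rw [ν₀.apply_symm_apply, hxc]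
        · obtain ⟨x, hx, hxy⟩ := ((hD y).1).2 ⟨hy, fun k c hc h => hex ⟨k, c, hc, h⟩⟩
          exact ⟨W.lo ⟨x, hx⟩, hxy⟩
    rw [hr]
    exact hAe
  have hE : ∀ (T : Type u) (ν : T ↪ O.ι), #T = κ → K.emb (PhiE D ν) := by
    intro T ν hT
    obtain ⟨ν₀⟩ : Nonempty (T ≃ Q) := Cardinal.eq.1 (hT.trans hQ.symm)
    obtain ⟨π, hπ⟩ := Cardinal.extend_function_of_lt (s := Q)
      (ν₀.symm.toEmbedding.trans ν) (by rw [hQ]; exact O.big) ⟨Equiv.refl O.ι⟩
    obtain ⟨φ, hφ1, hφ2⟩ := hprm L κ K O π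
    have h1 : PhiE D ν = φ.toEmbedding.comp
        (PhiE D (ν₀.toEmbedding.trans (Function.Embedding.subtype _))) := by
      ext x
      rcases x with x | x
      · show D.p x.1 = φ (D.p x.1)
        exact (hφ2 _ (D.hX x.1 x.2)).symm
      · show O.e (ν x.1) (D.p x.2.1) = φ (O.e ((ν₀ x.1 : Q) : O.ι) (D.p x.2.1))
        rw [hφ1 _ _ (D.hA _ x.2.2), hπ (ν₀ x.1)]
        show _ = O.e (ν (ν₀.symm (ν₀ x.1))) (D.p x.2.1)
        rw [ν₀.symm_apply_apply]
    rw [h1]
    exact K.comp (hE0 T ν₀) (K.iso O.N.prop φ)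
  refine ⟨τ, fun T T' f hT hT' => ?_⟩
  obtain ⟨ν⟩ : Nonempty (T' ↪ O.ι) := by
    have h1 : #T' ≤ #O.ι := by rw [hT']; exact O.big.le
    exact h1
  have h1 : (PhiE D ν).comp (W.emb (τ := τ) f) = PhiE D (f.trans ν) := by
    ext x
    rcases x with x | x <;> rfl
  exact K.coh (hE T' ν hT') (h1 ▸ hE T (f.trans ν) hT)

end Pool.Agent.AEC.S.H48
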